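import Pool.Agent.Helper7.HL.Stmts

/-! # Row AL1: coefficients of alternants, antisymmetry, coefficients of `Dl * p` -/

namespace Pool.Agent.Helper7.HL

open Finset MvPolynomial
open Pool.Agent.Helper32.HG

theorem st_AL1 : ST_AL1 := by
  intro k S _
  refine ⟨?_, ?_, ?_, ?_⟩
  · intro l β
    unfold altp
    rw [coeff_sum]
    refine Finset.sum_congr rfl fun σ _ => ?_
    rw [coeff_monomial]
    by_cases h : β = l ∘ σ
    · rw [if_pos (by rw [h]), if_pos h]
    · rw [if_neg (fun h' => h (ex_inj h').symm), if_neg h]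
  · intro l τ
    unfold altp
    rw [Finset.mul_sum]
    refine Fintype.sum_equiv (Equiv.mulLeft τ) _ _ fun σ => ?_
    rw [Equiv.coe_mulLeft, C_mul_monomial, Equiv.Perm.sign_mul]
    have h1 : (l ∘ τ) ∘ σ = l ∘ (τ * σ : Equiv.Perm (Fin k)) := rfl
    rw [h1]
    congr 1
    have h2 : ((Equiv.Perm.sign τ : ℤ) * ((Equiv.Perm.sign τ : ℤ) * (Equiv.Perm.sign σ : ℤ))) =
        (Equiv.Perm.sign σ : ℤ) := by
      rw [← mul_assoc, ← Units.val_mul, Int.units_mul_self]
      simp
    rw [Units.val_mul, ← Int.cast_mul, h2]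
  · intro l i j hij hl
    unfold altp
    refine Finset.sum_involution (fun σ _ => Equiv.swap i j * σ) ?_ ?_ ?_ ?_
    · intro σ _
      have h1 : l ∘ (Equiv.swap i j * σ : Equiv.Perm (Fin k)) = l ∘ σ := by
        funext x
        show l (Equiv.swap i j (σ x)) = l (σ x)
        rw [Equiv.swap_apply_def]
        split_ifs with ha hb
        · rw [ha, hl]
        · rw [hb, hl]
        · rfl
      rw [h1, ← map_add, Equiv.Perm.sign_mul, Equiv.Perm.sign_swap hij]
      simp
    · intro σ _ _ h
      exact hij (by
        have h1 : Equiv.swap i j = 1 := by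
          have := congrArg (fun x => x * σ⁻¹) h
          simpa using this
        have h2 := congrArg (fun e : Equiv.Perm (Fin k) => e i) h1
        simpa using h2.symm)
    · intro σ _
      exact Finset.mem_univ _
    · intro σ _
      show Equiv.swap i j * (Equiv.swap i j * σ) = σ
      rw [← mul_assoc, Equiv.swap_mul_self, one_mul]
  · intro β p
    unfold Dl altp
    rw [Finset.sum_mul, coeff_sum]
    refine Finset.sum_congr rfl fun σ _ => ?_
    rw [coeff_monomial_mul']
    have h1 : (ex (dl k ∘ σ) ≤ ex β) ↔ ∀ i, dl k (σ i) ≤ β i := by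
      constructor
      · intro h i
        exact h i
      · intro h i
        exact h i
    by_cases h : ∀ i, dl k (σ i) ≤ β i
    · rw [if_pos (h1.mpr h), if_pos h]
      congr 2
      ext i
      rw [Finsupp.tsub_apply, ex_apply, ex_apply, ex_apply]
      rfl
    · rw [if_neg (fun h' => h (h1.mp h')), if_neg h]

end Pool.Agent.Helper7.HL
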