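import Pool.Agent.Helper7.HL.Stmts

/-! # Row CO: columns and rows -/

namespace Pool.Agent.Helper7.HL

open Finset MvPolynomial
open Pool.Agent.Helper32.HG

/-- the length of the `j`-th column -/
def clen {n : ℕ} (lam : Fin n → ℕ) (j : ℕ) : ℕ := (univ.filter (fun i : Fin n => j < lam i)).card

theorem clen_le {n : ℕ} (lam : Fin n → ℕ) (j : ℕ) : clen lam j ≤ n := by
  unfold clen
  simpa using Finset.card_le_univ (univ.filter (fun i : Fin n => j < lam i))

theorem filter_lt_clen {n : ℕ} {lam : Fin n → ℕ} (h : Antitone lam) (j : ℕ) :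
    univ.filter (fun i : Fin n => j < lam i) =
      univ.filter (fun i : Fin n => i.val < clen lam j) := by
  classical
  have hsub : ∀ i : Fin n, j < lam i → i.val < clen lam j := by
    intro i hi
    have h1 : (univ.filter (fun i' : Fin n => i'.val < i.val + 1)) ⊆
        univ.filter (fun i : Fin n => j < lam i) := by
      intro i' hi'
      rw [Finset.mem_filter] at hi' ⊢
      refine ⟨Finset.mem_univ _, lt_of_lt_of_le hi (h ?_)⟩
      exact Fin.le_def.mpr (by omega)
    have h2 := Finset.card_le_card h1
    rw [card_lt (i.val + 1) i.isLt] at h2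
    unfold clen
    omega
  apply Finset.eq_of_subset_of_card_le
  · intro i hi
    rw [Finset.mem_filter] at hi ⊢
    exact ⟨Finset.mem_univ _, hsub i hi.2⟩
  · rw [card_lt _ (clen_le lam j)]
    exact le_refl _

theorem lt_clen {n : ℕ} {lam : Fin n → ℕ} (h : Antitone lam) (j : ℕ) (i : Fin n) :
    i.val < clen lam j ↔ j < lam i := by
  have h1 := Finset.ext_iff.mp (filter_lt_clen h j) i
  simpa using h1.symm

theorem countP_range' (a m : ℕ) (p : ℕ → Prop) [DecidablePred p] :
    (List.range' a m).countP (fun j => decide (p j)) =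
      ((Finset.Ico a (a + m)).filter p).card := by
  induction m generalizing a with
  | zero => simp
  | succ m ih =>
    rw [List.range'_succ, List.countP_cons, ih]
    have h1 : Finset.Ico a (a + (m + 1)) = insert a (Finset.Ico (a + 1) (a + 1 + m)) := by
      ext x
      rw [Finset.mem_insert, Finset.mem_Ico, Finset.mem_Ico]
      omega
    rw [h1, Finset.filter_insert]
    by_cases hp : p a
    · rw [if_pos hp, Finset.card_insert_of_notMem, if_pos (by simpa using hp)]
      intro h2
      rw [Finset.mem_filter, Finset.mem_Ico] at h2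
      omega
    · rw [if_neg hp, if_neg (by simpa using hp)]
      omega

theorem rowl_range' {n : ℕ} {lam : Fin n → ℕ} (h : Antitone lam) (hn : ∀ i, lam i ≤ n)
    (a : ℕ) (ha : a ≤ n) (k : ℕ) (i : Fin k) (i' : Fin n) (hi : i'.val = i.val) :
    rowl k ((List.range' a (n - a)).map (clen lam)) i = lam i' - a := by
  unfold rowl
  rw [List.countP_map]
  have h1 : ((fun c => decide (i.val < c)) ∘ clen lam) =
      (fun j => decide (i.val < clen lam j)) := rfl
  rw [h1, countP_range']
  have h2 : ((Finset.Ico a (a + (n - a))).filter (fun j => i.val < clen lam j)) =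
      Finset.Ico a (lam i') := by
    ext j
    rw [Finset.mem_filter, Finset.mem_Ico, Finset.mem_Ico, ← hi, lt_clen h]
    have := hn i'
    omega
  rw [h2, Nat.card_Ico]

theorem prod_filter_fin {M : Type} [CommMonoid M] {n c : ℕ} (hc : c ≤ n) (F : ℕ → M) :
    ∏ i ∈ univ.filter (fun i : Fin n => i.val < c), F i.val = ∏ i : Fin c, F i.val := by
  rw [Finset.prod_filter, Fin.prod_univ_eq_prod_range (fun i => if i < c then F i else 1) n,
    Fin.prod_univ_eq_prod_range F c, ← Finset.prod_filter]
  congr 1
  ext i
  rw [Finset.mem_filter, Finset.mem_range, Finset.mem_range]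
  omega

theorem clf_range' {n : ℕ} {lam : Fin n → ℕ} (h : Antitone lam) (hn : ∀ i, lam i ≤ n)
    {K : Type} [Field K] (q t : K) (m : ℕ) : ∀ a : ℕ, a + m = n →
    clf q t ((List.range' a m).map (clen lam)) =
      ∏ j ∈ Finset.Ico a n, ∏ i ∈ univ.filter (fun i : Fin n => j < lam i),
        (1 - q ^ (lam i - j - 1) * t ^ (clen lam j - 1 - i.val + 1)) := by
  induction m with
  | zero =>
    intro a ha
    have : a = n := by omega
    subst this
    simp [clf]
  | succ m ih =>
    intro a ha
    rw [List.range'_succ, List.map_cons]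
    have hm : m = n - (a + 1) := by omega
    have h0 : Finset.Ico a n = insert a (Finset.Ico (a + 1) n) := by
      ext x
      rw [Finset.mem_insert, Finset.mem_Ico, Finset.mem_Ico]
      omega
    rw [h0, Finset.prod_insert (by rw [Finset.mem_Ico]; omega), ← ih (a + 1) (by omega)]
    show (∏ i : Fin (clen lam a), (1 - t * q ^ (rowl (clen lam a)
      ((List.range' (a + 1) m).map (clen lam)) i) * t ^ (dl (clen lam a) i))) * _ = _
    congr 1
    rw [filter_lt_clen h a]
    have h4 : ∏ i ∈ univ.filter (fun i : Fin n => i.val < clen lam a),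
        (1 - q ^ (lam i - a - 1) * t ^ (clen lam a - 1 - i.val + 1)) =
        ∏ i ∈ univ.filter (fun i : Fin n => i.val < clen lam a),
        (fun x : ℕ => (1 - q ^ ((if h : x < n then lam ⟨x, h⟩ else 0) - a - 1) *
          t ^ (clen lam a - 1 - x + 1) : K)) i.val := by
      refine Finset.prod_congr rfl fun i _ => ?_
      show _ = (1 - q ^ ((if h : i.val < n then lam ⟨i.val, h⟩ else 0) - a - 1) *
          t ^ (clen lam a - 1 - i.val + 1) : K)
      rw [dif_pos i.isLt]
    rw [h4]
    refine Eq.trans ?_ (prod_filter_fin (clen_le lam a)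
      (fun x : ℕ => (1 - q ^ ((if h : x < n then lam ⟨x, h⟩ else 0) - a - 1) *
          t ^ (clen lam a - 1 - x + 1) : K))).symm
    refine Finset.prod_congr rfl fun i _ => ?_
    have hin : i.val < n := lt_of_lt_of_le i.isLt (clen_le lam a)
    show _ = (1 - q ^ ((if h : i.val < n then lam ⟨i.val, h⟩ else 0) - a - 1) *
          t ^ (clen lam a - 1 - i.val + 1) : K)
    rw [dif_pos hin, hm, rowl_range' h hn (a + 1) (by omega) _ i ⟨i.val, hin⟩ rfl]
    unfold dl
    rw [pow_succ, ← Nat.sub_sub (lam ⟨i.val, hin⟩) a 1]
    ring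

theorem st_CO : ST_CO := by
  intro n lam hlam
  rw [mem_parts] at hlam
  obtain ⟨hanti, hsum⟩ := hlam
  have hn : ∀ i, lam i ≤ n := by
    intro i
    rw [← hsum]
    exact Finset.single_le_sum (f := lam) (fun _ _ => Nat.zero_le _) (Finset.mem_univ i)
  have hcols : cols lam = (List.range' 0 (n - 0)).map (clen lam) := by
    unfold cols clen
    rw [List.range_eq_range', Nat.sub_zero]
  refine ⟨?_, ?_, ?_, ?_, ?_⟩
  · unfold Dec cols
    rw [List.pairwise_map]
    refine List.Pairwise.imp ?_ (List.pairwise_lt_range)
    intro a b hab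
    apply Finset.card_le_card
    intro i hi
    rw [Finset.mem_filter] at hi ⊢
    exact ⟨hi.1, hab.trans hi.2⟩
  · intro c hc
    unfold cols at hc
    rw [List.mem_map] at hc
    obtain ⟨j, _, rfl⟩ := hc
    exact clen_le lam j
  · have h1 : (cols lam).sum = ∑ j ∈ Finset.range n, clen lam j := by
      unfold cols clen
      rw [Finset.sum_range, ← List.sum_ofFn, List.ofFn_eq_map, ← List.map_coe_finRange_eq_range,
        List.map_map]
      rfl
    rw [h1]
    refine Eq.trans ?_ hsum
    unfold clen
    simp only [Finset.card_filter]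
    rw [Finset.sum_comm]
    have h2 : ∀ i : Fin n, (∑ j ∈ Finset.range n, if j < lam i then 1 else 0) = lam i := by
      intro i
      rw [← Finset.card_filter]
      have : (Finset.range n).filter (fun j => j < lam i) = Finset.range (lam i) := by
        ext j
        rw [Finset.mem_filter, Finset.mem_range, Finset.mem_range]
        have := hn i
        omega
      rw [this, Finset.card_range]
    exact Finset.sum_congr rfl fun i _ => h2 i
  · funext i
    rw [hcols, rowl_range' hanti hn 0 (Nat.zero_le _) n i i rfl, Nat.sub_zero]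
  · intro K _ q t
    rw [hcols, clf_range' hanti hn q t (n - 0) 0 (by omega)]
    have h1 : ∀ j ∈ Finset.Ico 0 n, ∏ i ∈ univ.filter (fun i : Fin n => j < lam i),
        (1 - q ^ (lam i - j - 1) * t ^ (clen lam j - 1 - i.val + 1)) =
        ∏ i : Fin n, if j < lam i then (1 - q ^ (lam i - j - 1) *
      t ^ ((univ.filter (fun i' : Fin n => i < i' ∧ j < lam i')).card + 1)) else 1 := by
      intro j _
      rw [Finset.prod_filter]
      refine Finset.prod_congr rfl fun i _ => ?_
      by_cases hj : j < lam i
      · rw [if_pos hj, if_pos hj]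
        congr 3
        have h2 : univ.filter (fun i' : Fin n => i < i' ∧ j < lam i') =
            (univ.filter (fun i' : Fin n => i'.val < clen lam j)) \
              (univ.filter (fun i' : Fin n => i'.val < i.val + 1)) := by
          ext i'
          rw [Finset.mem_filter, Finset.mem_sdiff, Finset.mem_filter, Finset.mem_filter,
            lt_clen hanti, Fin.lt_def]
          constructor
          · rintro ⟨_, a, b⟩
            exact ⟨⟨Finset.mem_univ _, b⟩, fun hh => by have := hh.2; omega⟩
          · rintro ⟨⟨_, b⟩, hh⟩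
            refine ⟨Finset.mem_univ _, ?_, b⟩
            by_contra hc
            exact hh ⟨Finset.mem_univ _, by omega⟩
        have hlt : i.val < clen lam j := (lt_clen hanti j i).mpr hj
        rw [h2, Finset.card_sdiff_of_subset, card_lt _ (clen_le lam j), card_lt _ i.isLt]
        · omega
        · intro i' hi'
          rw [Finset.mem_filter] at hi' ⊢
          exact ⟨Finset.mem_univ _, by omega⟩
      · rw [if_neg hj, if_neg hj]
    rw [Finset.prod_congr rfl h1, Finset.prod_comm]
    refine Finset.prod_congr rfl fun i _ => ?_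
    rw [← Finset.prod_filter]
    congr 1
    ext j
    rw [Finset.mem_filter, Finset.mem_Ico, Finset.mem_range]
    have := hn i
    omega

end Pool.Agent.Helper7.HL
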