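import Pool.Agent.Helper48.HL.AL1

/-! # Row DC: coefficients and linearity of Macdonald's operator -/

namespace Pool.Agent.Helper7.HL

open Finset MvPolynomial
open Pool.Agent.Helper32.HG

theorem pinv_self {N : ℕ} (σ : Equiv.Perm (Fin N)) (x : Fin N) : σ⁻¹ (σ x) = x := by simp

theorem self_pinv {N : ℕ} (σ : Equiv.Perm (Fin N)) (x : Fin N) : σ (σ⁻¹ x) = x := by simp

/-- the coefficients of `Dop` -/
theorem coeff_Dop {N : ℕ} {R : Type} [CommRing R] (q t v : R) (β : Fin N → ℕ)
    (f : MvPolynomial (Fin N) R) : coeff (ex β) (Dop q t v N f) =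
    ∑ σ : Equiv.Perm (Fin N), if ∀ i, dl N i ≤ β (σ i) then
      ((Equiv.Perm.sign σ : ℤ) : R) * (coeff (ex (fun i => β (σ i) - dl N i)) f *
        ∏ i, (1 - v * q ^ (β (σ i) - dl N i) * t ^ (dl N i))) else 0 := by
  unfold Dop
  rw [coeff_sum]
  have h1 : ∀ γ ∈ f.support, coeff (ex β) (C (coeff γ f *
      ∏ i, (1 - v * q ^ (γ i) * t ^ (dl N i))) * altp N R (fun i => γ i + dl N i)) =
      ∑ σ : Equiv.Perm (Fin N), if (∀ i, dl N i ≤ β (σ i)) ∧
        γ = ex (fun i => β (σ i) - dl N i) then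
        ((Equiv.Perm.sign σ : ℤ) : R) * (coeff γ f *
          ∏ i, (1 - v * q ^ (γ i) * t ^ (dl N i))) else 0 := by
    intro γ _
    rw [coeff_C_mul, (st_AL1 N R).1, Finset.mul_sum]
    refine Fintype.sum_equiv (Equiv.inv (Equiv.Perm (Fin N))) _ _ fun σ => ?_
    rw [Equiv.inv_apply]
    have h2 : (β = (fun i => γ i + dl N i) ∘ σ) ↔ ((∀ i, dl N i ≤ β (σ⁻¹ i)) ∧
        γ = ex (fun i => β (σ⁻¹ i) - dl N i)) := by
      constructor
      · intro h
        have h3 : ∀ i, β (σ⁻¹ i) = γ i + dl N i := by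
          intro i
          rw [h]
          simp
        refine ⟨fun i => by rw [h3]; omega, ?_⟩
        ext i
        rw [ex_apply, h3]
        omega
      · rintro ⟨h3, h4⟩
        funext i
        have h5 := h3 (σ i)
        have h6 : γ (σ i) = β (σ⁻¹ (σ i)) - dl N (σ i) := by
          conv_lhs => rw [h4]
          rw [ex_apply]
        rw [pinv_self] at h5 h6
        show β i = γ (σ i) + dl N (σ i)
        rw [h6]
        omega
    by_cases h : β = (fun i => γ i + dl N i) ∘ σ
    · rw [if_pos h, if_pos (h2.mp h), Equiv.Perm.sign_inv, mul_comm]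
    · rw [if_neg h, if_neg (fun h' => h (h2.mpr h')), mul_zero]
  rw [Finset.sum_congr rfl h1, Finset.sum_comm]
  refine Finset.sum_congr rfl fun σ _ => ?_
  by_cases h : ∀ i, dl N i ≤ β (σ i)
  · rw [if_pos h, Finset.sum_eq_single (ex (fun i => β (σ i) - dl N i))]
    · rw [if_pos ⟨h, rfl⟩]
      rfl
    · intro γ _ hγ
      rw [if_neg (fun h' => hγ h'.2)]
    · intro hγ
      rw [notMem_support_iff] at hγ
      rw [hγ, zero_mul, mul_zero, ite_self]
  · rw [if_neg h]
    apply Finset.sum_eq_zero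
    intro γ _
    rw [if_neg (fun h' => h h'.1)]

theorem st_DC : ST_DC := by
  intro N R _ q t v
  refine ⟨fun β f => coeff_Dop q t v β f, ?_, ?_, ?_⟩
  · intro f g
    apply ext_ex
    intro β
    rw [coeff_add, coeff_Dop, coeff_Dop, coeff_Dop, ← Finset.sum_add_distrib]
    refine Finset.sum_congr rfl fun σ _ => ?_
    split_ifs with h
    · rw [coeff_add]; ring
    · rw [add_zero]
  · intro a f
    apply ext_ex
    intro β
    rw [coeff_C_mul, coeff_Dop, coeff_Dop, Finset.mul_sum]
    refine Finset.sum_congr rfl fun σ _ => ?_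
    split_ifs with h
    · rw [coeff_C_mul]; ring
    · rw [mul_zero]
  · intro f hv hf
    apply ext_ex
    intro β
    rw [coeff_Dop, (st_AL1 N R).2.2.2]
    refine Fintype.sum_equiv (Equiv.inv (Equiv.Perm (Fin N))) _ _ fun σ => ?_
    rw [Equiv.inv_apply, Equiv.Perm.sign_inv]
    have h1 : (∀ i, dl N i ≤ β (σ i)) ↔ (∀ i, dl N (σ⁻¹ i) ≤ β i) := by
      constructor
      · intro h i
        have := h (σ⁻¹ i)
        rwa [self_pinv] at this
      · intro h i
        have := h (σ i)
        rwa [pinv_self] at this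
    have h2 : (fun i => β (σ i) - dl N i) = (fun i => β i - dl N (σ⁻¹ i)) ∘ σ := by
      funext i
      show β (σ i) - dl N i = β (σ i) - dl N (σ⁻¹ (σ i))
      rw [pinv_self]
    by_cases h : ∀ i, dl N i ≤ β (σ i)
    · rw [if_pos h, if_pos (h1.mp h), h2, coeff_symm hf, hv]
      simp
    · rw [if_neg h, if_neg (fun h' => h (h1.mpr h'))]

end Pool.Agent.Helper7.HL
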