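import Pool.Agent.Helper7.HL.Stmts

/-! # Rows GEN and EVL: the field `ℚ(q)(t)` -/

namespace Pool.Agent.Helper7.HL

open Finset

theorem emb_inj' : Function.Injective emb := by
  unfold emb
  have h1 : Function.Injective (algebraMap (Polynomial (RatFunc ℚ)) (RatFunc (RatFunc ℚ))) :=
    RatFunc.algebraMap_injective (RatFunc ℚ)
  have h2 : Function.Injective (algebraMap (Polynomial ℚ) (RatFunc ℚ)) :=
    RatFunc.algebraMap_injective ℚ
  have h3 : Function.Injective (Polynomial.mapRingHom (Int.castRingHom ℚ)) :=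
    Polynomial.map_injective _ (RingHom.injective_int _)
  have h4 : Function.Injective ((algebraMap (Polynomial ℚ) (RatFunc ℚ)).comp
      (Polynomial.mapRingHom (Int.castRingHom ℚ))) := by
    rw [RingHom.coe_comp]
    exact h2.comp h3
  have h5 : Function.Injective (Polynomial.mapRingHom
      ((algebraMap (Polynomial ℚ) (RatFunc ℚ)).comp
      (Polynomial.mapRingHom (Int.castRingHom ℚ)))) := Polynomial.map_injective _ h4
  rw [RingHom.coe_comp]
  exact h1.comp h5

theorem emb_qz' : emb qz = qF := by
  unfold emb qz qF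
  simp only [RingHom.comp_apply, Polynomial.coe_mapRingHom, Polynomial.map_C, Polynomial.map_X,
    RatFunc.algebraMap_X, RatFunc.algebraMap_C]

theorem emb_tz' : emb tz = tF := by
  unfold emb tz tF
  simp only [RingHom.comp_apply, Polynomial.coe_mapRingHom, Polynomial.map_X,
    RatFunc.algebraMap_X]

theorem qt_ne_one (a b : ℕ) (h : 0 < a + b) : qF ^ a * tF ^ b ≠ 1 := by
  intro h1
  have h2 : emb (qz ^ a * tz ^ b) = emb 1 := by
    rw [map_mul, map_pow, map_pow, emb_qz', emb_tz', h1, map_one]
  have h3 := emb_inj' h2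
  have h4 := congrArg (fun A : R0 => ((A.eval 0).eval 0 : ℤ)) h3
  simp only [qz, tz, Polynomial.eval_mul, Polynomial.eval_pow, Polynomial.eval_C,
    Polynomial.eval_X, Polynomial.eval_one] at h4
  rcases Nat.eq_zero_or_pos a with ha | ha
  · have hb : b ≠ 0 := by omega
    rw [Polynomial.eval_zero, zero_pow hb, mul_zero] at h4
    exact zero_ne_one h4
  · rw [zero_pow (by omega), zero_mul] at h4
    exact zero_ne_one h4

theorem st_GEN : ST_GEN := by
  have hq : qF ≠ 0 := by
    unfold qF
    intro h
    exact RatFunc.X_ne_zero (RatFunc.C_injective (h.trans (map_zero _).symm))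
  have ht : tF ≠ 0 := RatFunc.X_ne_zero
  refine ⟨emb_inj', emb_qz', emb_tz', hq, ht, ?_, ?_⟩
  · intro a b h h1
    exact qt_ne_one a b h (sub_eq_zero.mp h1).symm
  · intro a b h h1
    have h2 := (sub_eq_zero.mp h1).symm
    rw [inv_pow, inv_pow, ← mul_inv, inv_eq_one] at h2
    exact qt_ne_one a b h h2

theorem st_EVL : ST_EVL := by
  intro A k
  have h1 : emb A = algebraMap (Polynomial (RatFunc ℚ)) (RatFunc (RatFunc ℚ))
      (A.map ((algebraMap (Polynomial ℚ) (RatFunc ℚ)).comp
      (Polynomial.mapRingHom (Int.castRingHom ℚ)))) := rfl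
  rw [h1, RatFunc.denom_algebraMap, RatFunc.eval_algebraMap]
  constructor
  · rw [Polynomial.eval_one]
    exact one_ne_zero
  · have h2 : ((algebraMap (Polynomial ℚ) (RatFunc ℚ)).comp
      (Polynomial.mapRingHom (Int.castRingHom ℚ))) =
        Polynomial.eval₂RingHom (Int.castRingHom (RatFunc ℚ)) RatFunc.X := by
      apply Polynomial.ringHom_ext'
      · exact RingHom.ext_int _ _
      · simp
    rw [Algebra.algebraMap_self, RingHom.id_apply, Polynomial.eval₂_map, RingHom.id_comp, h2]
    have h3 := Polynomial.hom_eval₂ A (RingHom.id (Polynomial ℤ))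
      (Polynomial.eval₂RingHom (Int.castRingHom (RatFunc ℚ)) RatFunc.X) (Polynomial.X ^ k)
    rw [RingHom.comp_id, map_pow] at h3
    have h4 : Polynomial.eval₂RingHom (Int.castRingHom (RatFunc ℚ)) RatFunc.X Polynomial.X =
        RatFunc.X := by
      simp
    rw [h4] at h3
    exact h3.symm

end Pool.Agent.Helper7.HL
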