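import Pool.Agent.Helper7.HL.Stmts

/-! # Row KD3: two determinants -/

namespace Pool.Agent.Helper7.HL

open Finset MvPolynomial
open Pool.Agent.Helper32.HG

/-- `prod (1 - y_i u)` -/
noncomputable def Apl (k : ℕ) (K : Type) [Field K] : Polynomial (MvPolynomial (Fin k) K) :=
  ∏ m : Fin k, (1 - Polynomial.C (X m) * Polynomial.X : Polynomial (MvPolynomial (Fin k) K))

theorem Apl_zero (k : ℕ) (K : Type) [Field K] : (Apl k K).coeff 0 = 1 := by
  rw [Polynomial.coeff_zero_eq_eval_zero]
  unfold Apl
  rw [Polynomial.eval_prod]
  apply Finset.prod_eq_one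
  intro m _
  simp

theorem Apl_top (k : ℕ) (K : Type) [Field K] :
    (Apl k K).coeff k = (-1) ^ k * ∏ i : Fin k, (X i : MvPolynomial (Fin k) K) := by
  have h := Polynomial.coeff_prod_of_natDegree_le (s := (univ : Finset (Fin k)))
    (f := fun m : Fin k => (1 - Polynomial.C (X m) * Polynomial.X :
      Polynomial (MvPolynomial (Fin k) K))) (n := 1) (by
      intro m _
      refine (Polynomial.natDegree_sub_le _ _).trans (max_le ?_ ?_)
      · simp
      · exact (Polynomial.natDegree_C_mul_le _ _).trans Polynomial.natDegree_X_le)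
  rw [Finset.card_univ, Fintype.card_fin, mul_one] at h
  unfold Apl
  rw [h]
  have h2 : ∀ m : Fin k, (1 - Polynomial.C (X m) * Polynomial.X :
      Polynomial (MvPolynomial (Fin k) K)).coeff 1 = (-1) * X m := by
    intro m
    rw [Polynomial.coeff_sub, Polynomial.coeff_C_mul, Polynomial.coeff_X_one,
      Polynomial.coeff_one]
    simp
  rw [Finset.prod_congr rfl fun m _ => h2 m, Finset.prod_mul_distrib, Finset.prod_const,
    Finset.card_univ, Fintype.card_fin]

theorem sum_dl {M : Type} [AddCommMonoid M] (N : ℕ) (F : ℕ → M) :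
    ∑ j : Fin N, F (dl N j) = ∑ b ∈ range N, F b := by
  rw [← Finset.sum_range_reflect F N, Finset.sum_range]
  rfl

theorem st_KD3 : ST_CR → ST_KD3 := by
  intro hCR K _ q t hq k
  have hCR' : ∀ a : ℕ, ∑ b ∈ range (k + 1), (Apl k K).coeff b * Gm q t 1 k b a = 0 :=
    fun a => hCR K q t hq k a
  constructor
  · intro N β hN
    rw [← Matrix.exists_mulVec_eq_zero_iff]
    refine ⟨fun j => if dl N j ≤ k then (Apl k K).coeff (dl N j) else 0, ?_, ?_⟩
    · intro h
      have h1 := congrFun h (⟨N - 1, by omega⟩ : Fin N)
      have h2 : dl N (⟨N - 1, by omega⟩ : Fin N) = 0 := by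
        unfold dl
        show N - 1 - (N - 1) = 0
        omega
      rw [Pi.zero_apply] at h1
      simp only [h2] at h1
      rw [if_pos (Nat.zero_le _), Apl_zero] at h1
      exact one_ne_zero h1
    · funext i
      rw [Pi.zero_apply]
      show ∑ j, Gm q t 1 k (dl N j) (β i) *
        (if dl N j ≤ k then (Apl k K).coeff (dl N j) else 0) = 0
      rw [sum_dl N (fun b => Gm q t 1 k b (β i) * (if b ≤ k then (Apl k K).coeff b else 0))]
      refine Eq.trans ?_ (hCR' (β i))
      rw [← Finset.sum_subset (Finset.range_subset_range.mpr hN)]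
      · refine Finset.sum_congr rfl fun b hb => ?_
        rw [Finset.mem_range] at hb
        rw [if_pos (by omega), mul_comm]
      · intro b _ hb
        rw [Finset.mem_range, not_lt] at hb
        rw [if_neg (by omega), mul_zero]
  · intro β
    rcases k with _ | m
    · simp
    · set M : Matrix (Fin (m + 1)) (Fin (m + 1)) (MvPolynomial (Fin (m + 1)) K) :=
        Matrix.of fun i j => Gm q t 1 (m + 1) (dl (m + 1) j) (β i + 1) with hM
      set M2 : Matrix (Fin (m + 1)) (Fin (m + 1)) (MvPolynomial (Fin (m + 1)) K) :=
        Matrix.of fun i j => Gm q t t (m + 1) (dl (m + 1) j) (β i) with hM2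
      have hG : ∀ d b : ℕ, Gm q t 1 (m + 1) (d + 1) (b + 1) = Gm q t t (m + 1) d b := by
        intro d b
        unfold Gm
        by_cases h : b < d
        · rw [if_pos h, if_pos (by omega)]
        · rw [if_neg h, if_neg (by omega), Nat.add_sub_add_right]
          congr 2
          ring
      have h1 := Matrix.det_updateCol_sum M (Fin.last m)
        (fun j => (Apl (m + 1) K).coeff (dl (m + 1) j))
      have hlast : dl (m + 1) (Fin.last m) = 0 := by
        unfold dl
        rw [Fin.val_last]
        omega
      rw [hlast, Apl_zero, one_smul] at h1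
      rw [← h1]
      have h2 : M.updateCol (Fin.last m)
          (fun i => ∑ j, (Apl (m + 1) K).coeff (dl (m + 1) j) • M i j) =
          (M2.updateCol 0 ((- (Apl (m + 1) K).coeff (m + 1)) • fun i => M2 i 0)).submatrix id
            (finRotate (m + 1)) := by
        apply Matrix.ext
        intro i j
        rw [Matrix.submatrix_apply, id_eq]
        refine Fin.lastCases ?_ (fun j => ?_) j
        · rw [Matrix.updateCol_self, finRotate_last, Matrix.updateCol_self, Pi.smul_apply,
            smul_eq_mul]
          have h3 : ∑ j, (Apl (m + 1) K).coeff (dl (m + 1) j) • M i j =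
              ∑ b ∈ range (m + 1), (Apl (m + 1) K).coeff b * Gm q t 1 (m + 1) b (β i + 1) :=
            sum_dl (m + 1) (fun b => (Apl (m + 1) K).coeff b * Gm q t 1 (m + 1) b (β i + 1))
          rw [h3]
          have h4 := hCR' (β i + 1)
          rw [Finset.sum_range_succ] at h4
          have h5 : M2 i 0 = Gm q t 1 (m + 1) (m + 1) (β i + 1) := by
            rw [hG]
            rfl
          rw [h5]
          linear_combination h4
        · have hne : j.castSucc ≠ Fin.last m := (Fin.castSucc_lt_last j).ne
          rw [Matrix.updateCol_ne hne]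
          have h6 : finRotate (m + 1) j.castSucc = j.succ := by
            have := finRotate_of_lt (n := m) j.isLt
            exact this
          rw [h6, Matrix.updateCol_ne (Fin.succ_ne_zero j)]
          show Gm q t 1 (m + 1) (dl (m + 1) j.castSucc) (β i + 1) =
            Gm q t t (m + 1) (dl (m + 1) j.succ) (β i)
          rw [← hG]
          congr 1
          unfold dl
          rw [Fin.val_castSucc, Fin.val_succ]
          have := j.isLt
          omega
      rw [h2, Matrix.det_permute', Matrix.det_updateCol_smul, Apl_top, sign_finRotate]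
      have h7 : M2.updateCol 0 (fun i => M2 i 0) = M2 := Matrix.updateCol_eq_self M2 0
      rw [h7]
      have h8 : ((-1 : MvPolynomial (Fin (m + 1)) K)) ^ m * (-1) ^ m = 1 := by
        rw [← mul_pow]; simp
      push_cast
      rw [pow_succ]
      linear_combination ((∏ i : Fin (m + 1), (X i : MvPolynomial (Fin (m + 1)) K)) * M2.det) * h8

end Pool.Agent.Helper7.HL
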