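import Pool.Agent.Helper7.HL.Stmts

/-! # Row PD: permutations of `ν + δ` and dominance -/

namespace Pool.Agent.Helper7.HL

open Finset MvPolynomial
open Pool.Agent.Helper32.HG

/-- the sum over the first `m` entries of an antitone function is maximal -/
theorem anti_top {N : ℕ} (f : Fin N → ℤ) (hf : Antitone f) (T : Finset (Fin N)) :
    ∑ i ∈ T, f i ≤ ∑ i ∈ univ.filter (fun i : Fin N => i.val < T.card), f i := by
  classical
  set U := univ.filter (fun i : Fin N => i.val < T.card) with hU
  have hc : U.card = T.card := by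
    rw [hU]
    exact card_lt T.card (by simpa using Finset.card_le_univ T)
  have h1 : (T \ U).card = (U \ T).card := by
    have a1 := Finset.card_sdiff_add_card_inter T U
    have a2 := Finset.card_sdiff_add_card_inter U T
    rw [Finset.inter_comm] at a2
    omega
  have h2 : ∑ i ∈ T, f i = ∑ i ∈ T \ U, f i + ∑ i ∈ T ∩ U, f i := by
    rw [← Finset.sum_union]
    · congr 1
      ext x
      simp only [Finset.mem_union, Finset.mem_sdiff, Finset.mem_inter]
      tauto
    · rw [Finset.disjoint_left]
      intro x hx hx'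
      exact (Finset.mem_sdiff.mp hx).2 (Finset.mem_inter.mp hx').2
  have h3 : ∑ i ∈ U, f i = ∑ i ∈ U \ T, f i + ∑ i ∈ T ∩ U, f i := by
    rw [← Finset.sum_union]
    · congr 1
      ext x
      simp only [Finset.mem_union, Finset.mem_sdiff, Finset.mem_inter]
      tauto
    · rw [Finset.disjoint_left]
      intro x hx hx'
      exact (Finset.mem_sdiff.mp hx).2 (Finset.mem_inter.mp hx').1
  rw [h2, h3]
  have h4 : ∑ i ∈ T \ U, f i ≤ ∑ i ∈ U \ T, f i := by
    have hx : ∀ x ∈ T \ U, ∀ y ∈ U \ T, f x ≤ f y := by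
      intro x hx y hy
      apply hf
      have b1 := (Finset.mem_sdiff.mp hx).2
      have b2 := (Finset.mem_sdiff.mp hy).1
      rw [hU] at b1 b2
      simp only [Finset.mem_filter, Finset.mem_univ, true_and, not_lt] at b1 b2
      exact Fin.le_def.mpr (by omega)
    rcases (T \ U).eq_empty_or_nonempty with he | ⟨x0, hx0⟩
    · have he' : U \ T = ∅ := by
        rw [← Finset.card_eq_zero, ← h1, he, Finset.card_empty]
      rw [he, he']
    · have hne : (U \ T).Nonempty := by
        rw [← Finset.card_pos, ← h1, Finset.card_pos]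
        exact ⟨x0, hx0⟩
      obtain ⟨y1, hy1, hy1'⟩ := Finset.exists_min_image (U \ T) f hne
      calc ∑ i ∈ T \ U, f i ≤ ∑ i ∈ T \ U, f y1 :=
            Finset.sum_le_sum fun x hx' => hx x hx' y1 hy1
        _ = (T \ U).card • f y1 := by rw [Finset.sum_const]
        _ = (U \ T).card • f y1 := by rw [h1]
        _ = ∑ i ∈ U \ T, f y1 := by rw [Finset.sum_const]
        _ ≤ ∑ i ∈ U \ T, f i := Finset.sum_le_sum fun x hx' => hy1' x hx'
  linarith

/-- strict form: if the sum of the staircase over `S` is maximal then `S` is an initial set -/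
theorem stair_top {N : ℕ} (S : Finset (Fin N))
    (h : ∑ i ∈ univ.filter (fun i : Fin N => i.val < S.card), (dl N i : ℤ) ≤
      ∑ i ∈ S, (dl N i : ℤ)) :
    S = univ.filter (fun i : Fin N => i.val < S.card) := by
  classical
  set U := univ.filter (fun i : Fin N => i.val < S.card) with hU
  have hc : U.card = S.card := by
    rw [hU]
    exact card_lt S.card (by simpa using Finset.card_le_univ S)
  by_contra hne
  have h1 : (S \ U).card = (U \ S).card := by
    have a1 := Finset.card_sdiff_add_card_inter S U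
    have a2 := Finset.card_sdiff_add_card_inter U S
    rw [Finset.inter_comm] at a2
    omega
  have hne1 : (S \ U).Nonempty := by
    rw [Finset.nonempty_iff_ne_empty]
    intro he
    apply hne
    apply Finset.eq_of_subset_of_card_le
    · exact Finset.sdiff_eq_empty_iff_subset.mp he
    · omega
  have h2 : ∑ i ∈ S, (dl N i : ℤ) = ∑ i ∈ S \ U, (dl N i : ℤ) + ∑ i ∈ S ∩ U, (dl N i : ℤ) := by
    rw [← Finset.sum_union]
    · congr 1
      ext x
      simp only [Finset.mem_union, Finset.mem_sdiff, Finset.mem_inter]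
      tauto
    · rw [Finset.disjoint_left]
      intro x hx hx'
      exact (Finset.mem_sdiff.mp hx).2 (Finset.mem_inter.mp hx').2
  have h3 : ∑ i ∈ U, (dl N i : ℤ) = ∑ i ∈ U \ S, (dl N i : ℤ) + ∑ i ∈ S ∩ U, (dl N i : ℤ) := by
    rw [← Finset.sum_union]
    · congr 1
      ext x
      simp only [Finset.mem_union, Finset.mem_sdiff, Finset.mem_inter]
      tauto
    · rw [Finset.disjoint_left]
      intro x hx hx'
      exact (Finset.mem_sdiff.mp hx).2 (Finset.mem_inter.mp hx').1
  have h4 : ∑ i ∈ S \ U, (dl N i : ℤ) < ∑ i ∈ U \ S, (dl N i : ℤ) := by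
    have hlo : ∀ x ∈ S \ U, (dl N x : ℤ) ≤ (N : ℤ) - 1 - S.card := by
      intro x hx
      have b1 := (Finset.mem_sdiff.mp hx).2
      rw [hU] at b1
      simp only [Finset.mem_filter, Finset.mem_univ, true_and, not_lt] at b1
      have := x.isLt
      unfold dl
      omega
    have hhi : ∀ x ∈ U \ S, (N : ℤ) - S.card ≤ (dl N x : ℤ) := by
      intro x hx
      have b1 := (Finset.mem_sdiff.mp hx).1
      rw [hU] at b1
      simp only [Finset.mem_filter, Finset.mem_univ, true_and] at b1
      have := x.isLt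
      unfold dl
      omega
    calc ∑ i ∈ S \ U, (dl N i : ℤ) ≤ ∑ i ∈ S \ U, ((N : ℤ) - 1 - S.card) :=
          Finset.sum_le_sum hlo
      _ < ∑ i ∈ S \ U, ((N : ℤ) - S.card) :=
          Finset.sum_lt_sum_of_nonempty hne1 fun x _ => by omega
      _ = ∑ i ∈ U \ S, ((N : ℤ) - S.card) := by
          rw [Finset.sum_const, Finset.sum_const, h1]
      _ ≤ ∑ i ∈ U \ S, (dl N i : ℤ) := Finset.sum_le_sum hhi
  rw [h2, h3] at h
  linarith

theorem dl_anti (N : ℕ) : Antitone (fun i : Fin N => (dl N i : ℤ)) := by
  intro i j hij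
  have := Fin.le_def.mp hij
  show (dl N j : ℤ) ≤ dl N i
  unfold dl
  omega

theorem st_PD : ST_PD := by
  intro N ν σ hν
  have hν' : Antitone (fun i => (ν i : ℤ)) := fun i j hij => by
    have := hν hij
    show (ν j : ℤ) ≤ ν i
    exact_mod_cast this
  -- the sum over `σ⁻¹ {i < m}`
  have key : ∀ m : ℕ, m ≤ N → ∀ S : Finset (Fin N),
      S = (univ.filter (fun i : Fin N => i.val < m)).image (σ⁻¹ : Equiv.Perm (Fin N)) →
      S.card = m ∧ ∑ i ∈ S, ((ν (σ i) : ℤ) + dl N (σ i) - dl N i) =
        ∑ i ∈ univ.filter (fun i : Fin N => i.val < m), ((ν i : ℤ) + dl N i) -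
          ∑ i ∈ S, (dl N i : ℤ) := by
    intro m hm S hS
    have hc : S.card = m := by
      rw [hS, Finset.card_image_of_injective _ (Equiv.injective _)]
      exact card_lt m hm
    refine ⟨hc, ?_⟩
    rw [Finset.sum_sub_distrib]
    congr 1
    rw [hS, Finset.sum_image (fun x _ y _ h => Equiv.injective _ h)]
    refine Finset.sum_congr rfl fun i _ => ?_
    simp
  constructor
  · intro T
    have hT : T.card ≤ N := by simpa using Finset.card_le_univ T
    refine ⟨(univ.filter (fun i : Fin N => i.val < T.card)).image (σ⁻¹ : Equiv.Perm (Fin N)),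
      (key T.card hT _ rfl).1, ?_⟩
    rw [(key T.card hT _ rfl).2]
    have h1 := anti_top (fun i => (ν i : ℤ)) hν' T
    have h2 := anti_top (fun i => (dl N i : ℤ)) (dl_anti N)
      ((univ.filter (fun i : Fin N => i.val < T.card)).image (σ⁻¹ : Equiv.Perm (Fin N)))
    rw [(key T.card hT _ rfl).1] at h2
    rw [Finset.sum_add_distrib]
    linarith
  · intro hD
    have hall : ∀ m : ℕ, m ≤ N →
        (univ.filter (fun i : Fin N => i.val < m)).image (σ⁻¹ : Equiv.Perm (Fin N)) =
          univ.filter (fun i : Fin N => i.val < m) := by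
      intro m hm
      obtain ⟨hc, hs⟩ := key m hm _ rfl
      set S := (univ.filter (fun i : Fin N => i.val < m)).image (σ⁻¹ : Equiv.Perm (Fin N)) with hS
      obtain ⟨S', hS', hle⟩ := hD S
      have h1 := anti_top (fun i => (ν i : ℤ)) hν' S'
      rw [hS', hc] at h1
      have h2 := hle
      rw [hs, Finset.sum_add_distrib] at h2
      have h3 : ∑ i ∈ univ.filter (fun i : Fin N => i.val < S.card), (dl N i : ℤ) ≤
          ∑ i ∈ S, (dl N i : ℤ) := by
        rw [hc]
        linarith
      have h4 := stair_top S h3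
      rw [hc] at h4
      exact h4
    have hfix : ∀ m : ℕ, m ≤ N → ∀ i : Fin N, i.val < m ↔ (σ⁻¹ i).val < m := by
      intro m hm i
      have h := hall m hm
      constructor
      · intro hi
        have : σ⁻¹ i ∈ (univ.filter (fun i : Fin N => i.val < m)).image
            (σ⁻¹ : Equiv.Perm (Fin N)) :=
          Finset.mem_image_of_mem _ (Finset.mem_filter.mpr ⟨Finset.mem_univ _, hi⟩)
        rw [h] at this
        exact (Finset.mem_filter.mp this).2
      · intro hi
        have : σ⁻¹ i ∈ univ.filter (fun i : Fin N => i.val < m) :=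
          Finset.mem_filter.mpr ⟨Finset.mem_univ _, hi⟩
        rw [← h, Finset.mem_image] at this
        obtain ⟨j, hj, hji⟩ := this
        have hj' := Equiv.injective _ hji
        rw [← hj']
        exact (Finset.mem_filter.mp hj).2
    have hinv : σ⁻¹ = 1 := by
      ext i
      have h1 := (hfix (i.val + 1) i.isLt i).mp (Nat.lt_succ_self _)
      have h2 : ¬ ((σ⁻¹ i).val < i.val) := fun h =>
        lt_irrefl _ ((hfix i.val i.isLt.le i).mpr h)
      simp only [Equiv.Perm.coe_one, id_eq]
      omega
    rw [← inv_inv σ, hinv, inv_one]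

end Pool.Agent.Helper7.HL
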