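import Pool.Agent.Helper7.HL.Stmts

/-! # Row STB: symmetry and stability of the evaluation in `N` variables -/

namespace Pool.Agent.Helper7.HL

open Finset MvPolynomial
open Pool.Agent.Helper32.HG

theorem hk_symm' {N : ℕ} {R : Type} [CommRing R] (m : ℕ) : (hk N R m).IsSymmetric := by
  have h := hz_symm (n := N) (K := R) (m : ℤ)
  unfold hz at h
  rw [if_pos (Int.natCast_nonneg m), Int.toNat_natCast] at h
  exact h

theorem ev_X' {R : Type} [CommRing R] (N i : ℕ) : ev R N (X i) = hk N R (i + 1) := by
  unfold ev sbt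
  rw [aeval_X, PowerSeries.coeff_mk]

theorem ev_symm' {R : Type} [CommRing R] (N : ℕ) (f : Sy R) : (ev R N f).IsSymmetric := by
  induction f using MvPolynomial.induction_on with
  | C a =>
    rw [← MvPolynomial.algebraMap_eq, AlgHom.commutes]
    exact MvPolynomial.IsSymmetric.C a
  | add p q hp hq =>
    rw [map_add]
    exact hp.add hq
  | mul_X p i hp =>
    rw [map_mul, ev_X']
    exact hp.mul (hk_symm' _)

/-- the last variable is put equal to zero -/
noncomputable def dropL (N : ℕ) (R : Type) [CommRing R] :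
    MvPolynomial (Fin (N + 1)) R →ₐ[R] MvPolynomial (Fin N) R :=
  aeval (fun i : Fin (N + 1) => if h : i.val < N then X ⟨i.val, h⟩ else 0)

theorem dropL_monomial {N : ℕ} {R : Type} [CommRing R] (s : Fin (N + 1) →₀ ℕ) (a : R) :
    dropL N R (monomial s a) = if s (Fin.last N) = 0 then
      monomial (ex (fun i : Fin N => s i.castSucc)) a else 0 := by
  unfold dropL
  rw [aeval_monomial, Finsupp.prod_fintype _ _ (fun i => pow_zero _), Fin.prod_univ_castSucc]
  have h1 : ∀ i : Fin N, (if h : (i.castSucc : Fin (N + 1)).val < N then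
      (X ⟨(i.castSucc : Fin (N + 1)).val, h⟩ : MvPolynomial (Fin N) R) else 0) = X i := by
    intro i
    rw [dif_pos (by simp)]
    rfl
  have h2 : (if h : (Fin.last N).val < N then
      (X ⟨(Fin.last N).val, h⟩ : MvPolynomial (Fin N) R) else 0) = 0 := by
    rw [dif_neg (by simp)]
  rw [h2]
  simp only [h1]
  by_cases h : s (Fin.last N) = 0
  · rw [if_pos h, h, pow_zero, mul_one, MvPolynomial.algebraMap_eq, monomial_eq,
      Finsupp.prod_fintype _ _ (fun i => pow_zero _)]
    rfl
  · rw [if_neg h, zero_pow h, mul_zero, mul_zero]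

theorem coeff_dropL {N : ℕ} {R : Type} [CommRing R] (p : MvPolynomial (Fin (N + 1)) R)
    (γ : Fin N → ℕ) :
    coeff (ex γ) (dropL N R p) = coeff (ex (Fin.snoc γ 0 : Fin (N + 1) → ℕ)) p := by
  induction p using MvPolynomial.induction_on' with
  | monomial s a =>
    rw [dropL_monomial, coeff_monomial]
    by_cases h : s (Fin.last N) = 0
    · rw [if_pos h, coeff_monomial]
      by_cases h2 : ex (fun i : Fin N => s i.castSucc) = ex γ
      · rw [if_pos h2, if_pos]
        ext i
        rw [ex_apply]
        refine Fin.lastCases ?_ (fun j => ?_) i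
        · rw [Fin.snoc_last, h]
        · rw [Fin.snoc_castSucc]
          exact congrFun (ex_inj h2) j
      · rw [if_neg h2, if_neg]
        intro h3
        apply h2
        ext i
        rw [ex_apply, ex_apply, h3, ex_apply, Fin.snoc_castSucc]
    · rw [if_neg h, coeff_zero, if_neg]
      intro h3
      apply h
      rw [h3, ex_apply, Fin.snoc_last]
  | add p q hp hq =>
    rw [map_add, coeff_add, coeff_add, hp, hq]

theorem dropL_hk {N : ℕ} {R : Type} [CommRing R] (m : ℕ) :
    dropL N R (hk (N + 1) R m) = hk N R m := by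
  apply ext_ex
  intro γ
  rw [coeff_dropL, coeff_hk, coeff_hk]
  congr 1
  simp only [ex_apply]
  rw [Fin.sum_univ_castSucc]
  simp

theorem dropL_ev {R : Type} [CommRing R] (N : ℕ) (f : Sy R) :
    dropL N R (ev R (N + 1) f) = ev R N f := by
  induction f using MvPolynomial.induction_on with
  | C a =>
    rw [← MvPolynomial.algebraMap_eq, AlgHom.commutes, AlgHom.commutes, AlgHom.commutes]
  | add p q hp hq =>
    rw [map_add, map_add, map_add, hp, hq]
  | mul_X p i hp =>
    rw [map_mul, map_mul, map_mul, hp, ev_X', ev_X', dropL_hk]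

theorem st_STB : ST_STB := by
  intro R _ f
  refine ⟨fun N => ev_symm' N f, fun N γ => ?_⟩
  rw [← coeff_dropL, dropL_ev]

end Pool.Agent.Helper7.HL
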